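import Pool.Agent.Work.MP_055a27_an.Cr3.Main

/-!
# A sufficient condition for `(⋆)` when `lam < b`, for weights of any growth
-/

open MeasureTheory Set
open scoped ENNReal NNReal
open Pool.Agent.Work.MP_055a27_an

namespace Pool.Agent.Results.MP_055a27_an.ShadowSuff

/-- The shadow condition with aperture `μ`: the integral of `U` over `[x - μ y, x + μ y]` is at
most a constant times `y` times the exponential of the Poisson integral of `log U` at `(x, y)`. -/
def Shadow (μ : ℝ) (U : ℝ → ℝ) : Prop :=
  ∃ C : ℝ, ∀ x y : ℝ, 0 < y → ∫ t in Icc (x - μ * y) (x + μ * y), U t ≤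
    C * y * Real.exp (poisson (fun t : ℝ => Real.log (U t)) x y)

/-- If `lam < b`, the weight is positive almost everywhere, its logarithm has a Poisson integral
and the shadow condition holds with some aperture, then the weight satisfies `(⋆)`. -/
theorem result (lam b p : ℝ) (hlam : 0 < lam) (hlb : lam < b) (hp : 1 < p) (U : ℝ → ℝ)
    (hU : IsWeight U) (hpos : ∀ᵐ x, 0 < U x)
    (hlog : Admissible (fun t : ℝ => Real.log (U t))) (hS : ∃ μ : ℝ, 0 < μ ∧ Shadow μ U) :
    Star lam b p U := by
  obtain ⟨μ, hμ, C, hC⟩ := hS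
  refine Cr3.fSuffB lam b p μ U hlam hlb hp hμ ⟨hU, hpos, hlog⟩
    ⟨max C 1, lt_of_lt_of_le one_pos (le_max_right _ _), fun x y hy => ?_⟩
  refine (hC x y hy).trans ?_
  rw [mul_assoc]
  have : 0 ≤ y * Real.exp (poisson (fun t : ℝ => Real.log (U t)) x y) := by positivity
  exact mul_le_mul_of_nonneg_right (le_max_left _ _) this

end Pool.Agent.Results.MP_055a27_an.ShadowSuff
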