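import Pool.Agent.Work.MP_055a27_an.WeakStar

/-!
# Weak `A_∞` weights satisfy `(⋆)` when `lam < b`
-/

open Pool.Agent.Work.MP_055a27_an

namespace Pool.Agent.Results.MP_055a27_an.WeakSuff

/-- If the aperture of the area function is less than that of the maximal function, then every
weak `A_∞` weight satisfies `(⋆)`, for every positive exponent. -/
theorem result (lam b p : ℝ) (hlam : 0 < lam) (hlb : lam < b) (hp : 0 < p) (U : ℝ → ℝ)
    (hU : IsWeight U) (hW : WeakAInfty U) : Star lam b p U :=
  weak_star hU hW hlam hlb hp

end Pool.Agent.Results.MP_055a27_an.WeakSuff
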